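import Pool.Agent.Work.MP_e487d8_al.Bd.B20

/-! MP_e487d8_al, RMAT block: simplicity, injectivity, Lemma H. -/

set_option autoImplicit false

namespace Pool.Agent.KLS

variable {K I : Type} [Field K] [Fintype I] [DecidableEq I] {D : Datum K I}

section

variable {n : ℕ} {N N' : Type}
  [AddCommGroup N] [Module K N] [Module (KLRAlg D) N] [IsScalarTower K (KLRAlg D) N]
  [AddCommGroup N'] [Module K N'] [Module (KLRAlg D) N'] [IsScalarTower K (KLRAlg D) N']

theorem injective_of_surjective [FiniteDimensional K N] [FiniteDimensional K N']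
    (h : Module.finrank K N = Module.finrank K N') (f : N →ₗ[KLRAlg D] N')
    (hf : Function.Surjective f) : Function.Injective f :=
  (LinearMap.injective_iff_surjective_of_finrank_eq_finrank (f := Conv.toK f) h).2 hf

theorem surjective_of_injective [FiniteDimensional K N] [FiniteDimensional K N']
    (h : Module.finrank K N = Module.finrank K N') (f : N →ₗ[KLRAlg D] N')
    (hf : Function.Injective f) : Function.Surjective f :=
  (LinearMap.injective_iff_surjective_of_finrank_eq_finrank (f := Conv.toK f) h).1 hf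

omit [Module K N] [IsScalarTower K (KLRAlg D) N] [Module K N'] [IsScalarTower K (KLRAlg D) N'] in
theorem simple_of_equiv (f : N ≃ₗ[KLRAlg D] N') (h : IsSimpleModule (KLRAlg D) N) :
    IsSimpleModule (KLRAlg D) N' := IsSimpleModule.congr f.symm

end

namespace SMod

theorem finrank_conv (hb : S_basis D) (X Y : SMod D) :
    Module.finrank K (X.conv Y) = Module.finrank K (Y.conv X) := by
  rw [Conv.finrank hb X.smp.strand Y.smp.strand, Conv.finrank hb Y.smp.strand X.smp.strand,
    mul_comm (Module.finrank K X.M), Nat.add_comm Y.n X.n, ← Nat.choose_symm_add]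

/-- if `C ∘ X` is simple then `C ∘ X ≅ X ∘ C` -/
theorem equiv_of_comm (hb : S_basis D) {C X : SMod D} [Fact (C.n = 1)] (h : C.Comm X)
    {r : C.conv X →ₗ[KLRAlg D] X.conv C} (hr : r ≠ 0) : Function.Bijective r := by
  have h1 : IsSimpleModule (KLRAlg D) (C.conv X) := h
  have := (fdConv hb C X).fd
  have := (fdConv hb X C).fd
  have h2 : Function.Injective r := by
    rcases LinearMap.injective_or_eq_zero r with h3 | h3
    · exact h3
    · exact absurd h3 hr
  exact ⟨h2, surjective_of_injective (finrank_conv hb C X) r h2⟩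

/-- K1: if `C ∘ X` and `X ∘ C` have the same head then `C ∘ X` is simple -/
theorem rf_simple (hb : S_basis D) (C X H : SMod D) [Fact (C.n = 1)] (hC : C.Real) (h : Quo D H.M (C.conv X))
    (h' : Quo D H.M (X.conv C)) : C.Comm X := by
  obtain ⟨r, H₀, hd⟩ := exists_HD hb C X hC
  have h1 : sOrd C H = sOrd C C + sOrd C X := by
    rw [← hd.ord, ← sOrd_iso hb C (hd.iso_of_quo h)]
  obtain ⟨g, hg⟩ := h'
  have h2 : ¬ LinearMap.range r ≤ LinearMap.ker g := by
    intro hle
    have h3 : Quo D H.M (X.conv C ⧸ LinearMap.range r) := by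
      refine ⟨Submodule.liftQ _ g hle, ?_⟩
      intro z
      obtain ⟨y, rfl⟩ := hg z
      exact ⟨Submodule.Quotient.mk y, Submodule.liftQ_apply _ _ _⟩
    have h4 := hd.big' H h3
    omega
  have h3 : LinearMap.ker g = ⊥ := by
    by_contra h4
    exact h2 (hd.range_le _ h4)
  have h4 : Function.Bijective g := ⟨LinearMap.ker_eq_bot.1 h3, hg⟩
  have h5 : IsSimpleModule (KLRAlg D) (X.conv C) :=
    simple_of_equiv (LinearEquiv.ofBijective g h4).symm H.smp.simple
  have h6 : Function.Surjective r := by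
    rw [← LinearMap.range_eq_top]
    exact (IsSimpleOrder.eq_bot_or_eq_top (LinearMap.range r)).resolve_left hd.range_ne
  have := (fdConv hb C X).fd
  have := (fdConv hb X C).fd
  have h7 := injective_of_surjective (finrank_conv hb C X) r h6
  exact simple_of_equiv (LinearEquiv.ofBijective r ⟨h7, h6⟩).symm h5

/-- the head is the only simple quotient -/
theorem rf_hd_iso (hb : S_basis D) (C X Z Z' : SMod D) [Fact (C.n = 1)] (hC : C.Real) (h : Quo D Z.M (C.conv X))
    (h' : Quo D Z'.M (C.conv X)) : Z.Iso Z' := by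
  obtain ⟨r, H, hd⟩ := exists_HD hb C X hC
  exact (hd.iso_of_quo h).trans (hd.iso_of_quo h').symm

theorem rf_hd (hb : S_basis D) (C X : SMod D) [Fact (C.n = 1)] (hC : C.Real) :
    ∃ (H : SMod D) (f : C.conv X →ₗ[KLRAlg D] H.M),
    Function.Surjective f ∧ sOrd C H = sOrd C C + sOrd C X ∧
    ∀ Z : SMod D, SubQ D Z.M (LinearMap.ker f) → sOrd C C + sOrd C X < sOrd C Z := by
  obtain ⟨r, H, hd⟩ := exists_HD hb C X hC
  obtain ⟨f, hf⟩ := hd.quo
  refine ⟨H, f, hf, hd.ord, ?_⟩
  rw [hd.ker_eq f hf]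
  exact hd.big

/-- K4 -/
theorem rf_inj (hb : S_basis D) (C X Y H : SMod D) [Fact (C.n = 1)] (hC : C.Real) (h : Quo D H.M (C.conv X))
    (h' : Quo D H.M (C.conv Y)) : X.Iso Y := by
  have hn1 := quo_strand (fdConv hb C X) h
  have hn2 := quo_strand (fdConv hb C Y) h'
  have hn : X.n = Y.n := by omega
  obtain ⟨_, H₁, hd₁⟩ := exists_HD hb C X hC
  obtain ⟨rY, H₂, hd₂⟩ := exists_HD hb C Y hC
  have e1 := hd₁.iso_of_quo h
  have e2 := hd₂.iso_of_quo h'
  have hs : sOrd C X = sOrd C Y := by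
    have h1 := hd₁.ord
    have h2 := hd₂.ord
    rw [← sOrd_iso hb C e1.symm] at h1
    rw [← sOrd_iso hb C e2.symm] at h2
    omega
  have hgY : ∃ g : C.conv X →ₗ[KLRAlg D] Y.conv C, g ≠ 0 := by
    obtain ⟨f, hf⟩ := h
    obtain ⟨a⟩ := e2
    obtain ⟨b⟩ := hd₂.iso
    refine ⟨(LinearMap.range rY).subtype ∘ₗ b.toLinearMap ∘ₗ a.toLinearMap ∘ₗ f, fun h0 => ?_⟩
    obtain ⟨z, hz⟩ := exists_ne (0 : H.M)
    obtain ⟨y, rfl⟩ := hf z
    apply hz
    have h1 := LinearMap.congr_fun h0 y
    simp only [LinearMap.comp_apply, LinearEquiv.coe_coe, LinearMap.zero_apply,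
      Submodule.subtype_apply, ZeroMemClass.coe_eq_zero, LinearEquiv.map_eq_zero_iff] at h1
    exact h1
  obtain ⟨rX, hrX, hX0⟩ := sOrd_spec hb C X
  obtain ⟨g, hg⟩ := hgY
  have hYe : OrdEq C (N := Y.M) (hn ▸ Y.smp.strand : IsStrand D X.n Y.M) (sOrd C X) := by
    rw [hs]
    exact (sOrd_spec hb C Y).cast hn.symm _
  obtain ⟨rY', hrY', hY0⟩ := hYe
  have key : ∀ (k : ℕ) (e : Y.n = k) (g : C.conv X →ₗ[KLRAlg D] Conv D Y.n Y.M C.M) (_ : g ≠ 0),
      ∃ g : C.conv X →ₗ[KLRAlg D] Conv D k Y.M C.M, g ≠ 0 := by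
    intro k e g hg
    subst e
    exact ⟨g, hg⟩
  obtain ⟨g', hg'⟩ := key X.n hn.symm g hg
  exact equiv_of_map hb X.smp.simple Y.smp.simple (hC.scal hb) hrX hrY' hX0 hY0 g' hg'

end SMod

end Pool.Agent.KLS
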